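import Mathlib
import Pool.Agent.MP749e55.Core

/-!
# A renorming of `ℓ₂` whose simultaneous packing and covering constant exceeds `√2`

The norm is `N x = (x₀⁴ + (∑_{i ≥ 1} xᵢ²)²)^{1/4}`, that is the `ℓ₄`-sum `ℝ ⊕₄ ℓ₂`.
-/

open scoped RealInnerProductSpace

namespace Pool.Agent.Results.MP_749e55_an.GammaAboveSqrtTwo

open Pool.Agent.MP749e55

/-- `N` is a norm on the real normed space `E`, equivalent to the given norm `‖·‖` of `E`. -/
def IsEquivalentNorm {E : Type*} [NormedAddCommGroup E] [NormedSpace ℝ E] (N : E → ℝ) : Prop :=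
  (∀ x y : E, N (x + y) ≤ N x + N y) ∧ (∀ (a : ℝ) (x : E), N (a • x) = |a| * N x) ∧
    ∃ c C : ℝ, 0 < c ∧ ∀ x : E, c * ‖x‖ ≤ N x ∧ N x ≤ C * ‖x‖

/-- The radii `r > 0` for which `E`, normed by `N`, contains a set that is `2`-separated (distinct
points at `N`-distance at least `2`) and `r`-dense (every point of `E` is within `N`-distance `r`
of it). -/
def packCovRadii {E : Type*} [AddCommGroup E] (N : E → ℝ) : Set ℝ :=
  {r | 0 < r ∧ ∃ P : Set E, (∀ x ∈ P, ∀ y ∈ P, x ≠ y → 2 ≤ N (x - y)) ∧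
    ∀ x : E, ∃ p ∈ P, N (x - p) ≤ r}

/-- The simultaneous packing and covering constant `γ` of `E` normed by `N`. -/
noncomputable def packCovConst {E : Type*} [AddCommGroup E] (N : E → ℝ) : ℝ :=
  sInf (packCovRadii N)

lemma two_mem {E : Type*} [AddCommGroup E] [Module ℝ E] (N : Seminorm ℝ E) :
    (2 : ℝ) ∈ packCovRadii (fun x => N x) := by
  refine ⟨by norm_num, ?_⟩
  obtain ⟨P, hP⟩ := zorn_subset {P : Set E | ∀ x ∈ P, ∀ y ∈ P, x ≠ y → 2 ≤ N (x - y)} (by
    intro c hc hchain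
    refine ⟨⋃₀ c, ?_, fun s hs => Set.subset_sUnion_of_mem hs⟩
    rintro x ⟨s, hs, hxs⟩ y ⟨t, ht, hyt⟩ hxy
    rcases hchain.total hs ht with h | h
    · exact hc ht x (h hxs) y hyt hxy
    · exact hc hs x hxs y (h hyt) hxy)
  refine ⟨P, hP.prop, ?_⟩
  intro x
  by_contra hcon
  push Not at hcon
  have hxP : x ∉ P := by
    intro hx
    have := hcon x hx
    rw [sub_self, map_zero] at this
    linarith
  have hins : insert x P ∈ {P : Set E | ∀ x ∈ P, ∀ y ∈ P, x ≠ y → 2 ≤ N (x - y)} := by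
    intro a ha b hb hab
    rcases ha with rfl | ha
    · rcases hb with rfl | hb
      · exact absurd rfl hab
      · exact (hcon b hb).le
    · rcases hb with rfl | hb
      · rw [map_sub_rev]; exact (hcon a ha).le
      · exact hP.prop a ha b hb hab
  exact hxP (hP.le_of_ge hins (Set.subset_insert x P) (Set.mem_insert x P))


/-- The `n`-th unit vector of `ℓ₂`. -/
noncomputable def unit (n : ℕ) : lp (fun _ : ℕ => ℝ) 2 := lp.single 2 n (1 : ℝ)

lemma norm_unit (n : ℕ) : ‖unit n‖ = 1 := by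
  unfold unit
  rw [lp.norm_single (by norm_num)]; simp

lemma inner_unit (n : ℕ) (x : lp (fun _ : ℕ => ℝ) 2) : ⟪unit n, x⟫ = x n := by
  unfold unit
  rw [lp.inner_single_left]
  simp

lemma unit_apply_ne {m n : ℕ} (h : m ≠ n) : unit n m = 0 := by
  unfold unit
  rw [lp.single_apply_ne _ _ _ h]

/-- `ℓ₂` is infinite-dimensional. -/
lemma not_finiteDimensional_l2 : ¬ FiniteDimensional ℝ (lp (fun _ : ℕ => ℝ) 2) := by
  intro hfd
  have hon : Orthonormal ℝ (fun n : ℕ => unit n) := by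
    constructor
    · intro n
      exact norm_unit n
    · intro m n hmn
      show ⟪unit m, unit n⟫ = 0
      rw [inner_unit, unit_apply_ne hmn]
  have := hon.linearIndependent.finite_of_isNoetherian
  exact not_finite ℕ

/-- For the norm `N x = (x₀⁴ + (∑_{i ≥ 1} xᵢ²)²)^{1/4}` no set is both `2`-separated and
`1.414214`-dense. -/
lemma no_dense (N : Seminorm ℝ (lp (fun _ : ℕ => ℝ) 2))
    (hN : ∀ x : lp (fun _ : ℕ => ℝ) 2, N x ^ 4 = x 0 ^ 4 + (‖x‖ ^ 2 - x 0 ^ 2) ^ 2)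
    (r : ℝ) (hr : r ≤ 1.414214) : r ∉ packCovRadii (fun x => N x) := by
  rintro ⟨_, P, hsep, hden⟩
  obtain ⟨p0, hp0, _⟩ := hden 0
  have hin : ∀ x : lp (fun _ : ℕ => ℝ) 2, ⟪unit 0, x⟫ = x 0 := by
    intro x
    exact inner_unit 0 x
  apply no_dense_aux not_finiteDimensional_l2 (unit 0)
    (norm_unit 0) N (by intro x; rw [hin, hN]) r hr
    {x | x + p0 ∈ P} (by simpa using hp0)
  · intro x hx y hy hxy
    have := hsep (x + p0) hx (y + p0) hy (fun h => hxy (add_right_cancel h))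
    rwa [add_sub_add_right_eq_sub] at this
  · intro x
    obtain ⟨p, hp, hpr⟩ := hden (x + p0)
    refine ⟨p - p0, by simpa using hp, ?_⟩
    have : x - (p - p0) = x + p0 - p := by abel
    rwa [this]

/-- There is an equivalent norm on the real Hilbert space `ℓ₂` whose simultaneous packing and
covering constant is larger than `√2`.  (The proof uses
`N x = (x₀⁴ + (∑_{i ≥ 1} xᵢ²)²)^{1/4}`, and in fact gives `1.414214 ≤ packCovConst N`.) -/
theorem result :
    ∃ N : lp (fun _ : ℕ => ℝ) 2 → ℝ, IsEquivalentNorm N ∧ √2 < packCovConst N := by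
  have hin : ∀ x : lp (fun _ : ℕ => ℝ) 2, ⟪unit 0, x⟫ = x 0 := by
    intro x
    exact inner_unit 0 x
  have he : ‖unit 0‖ = 1 := norm_unit 0
  have hN : ∀ x : lp (fun _ : ℕ => ℝ) 2, norm4 (unit 0) x ^ 4
      = x 0 ^ 4 + (‖x‖ ^ 2 - x 0 ^ 2) ^ 2 := by
    intro x
    rw [norm4_pow _ he, hin]
  refine ⟨fun x => norm4 (unit 0) x, ⟨fun x y => map_add_le_add _ x y,
    fun a x => by simpa using map_smul_eq_mul (norm4 (unit 0)) a x, 1 / 2, 1, by norm_num, ?_⟩,
    ?_⟩
  · intro x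
    have h0 : 0 ≤ norm4 (unit 0) x := apply_nonneg _ _
    have h1 : x 0 ^ 2 ≤ ‖x‖ ^ 2 := by
      have h2 := abs_real_inner_le_norm (unit 0) x
      rw [he, one_mul, hin] at h2
      rw [← sq_abs (x 0)]
      exact pow_le_pow_left₀ (abs_nonneg _) h2 2
    have h3 : 0 ≤ x 0 ^ 2 := sq_nonneg _
    have h4 := hN x
    obtain ⟨u, hu⟩ : ∃ u : ℝ, u = x 0 ^ 2 := ⟨_, rfl⟩
    obtain ⟨w, hw⟩ : ∃ w : ℝ, w = ‖x‖ ^ 2 := ⟨_, rfl⟩
    have h5 : norm4 (unit 0) x ^ 4 = u ^ 2 + (w - u) ^ 2 := by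
      rw [h4, hu, hw]; ring
    rw [← hu, ← hw] at h1
    rw [← hu] at h3
    have h6 : ‖x‖ ^ 4 = w ^ 2 := by rw [hw]; ring
    constructor
    · apply le_of_pow_le_pow_left₀ (by norm_num : (4 : ℕ) ≠ 0) h0
      rw [mul_pow, h5, h6]
      nlinarith [sq_nonneg (2 * u - w)]
    · rw [one_mul]
      apply le_of_pow_le_pow_left₀ (by norm_num : (4 : ℕ) ≠ 0) (norm_nonneg x)
      rw [h5, h6]
      nlinarith
  · have h1 : (1.414214 : ℝ) ≤ packCovConst (fun x => norm4 (unit 0) x) := by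
      apply le_csInf ⟨2, two_mem _⟩
      intro r hr
      by_contra hcon
      push Not at hcon
      exact no_dense _ hN r hcon.le hr
    refine lt_of_lt_of_le ?_ h1
    rw [Real.sqrt_lt' (by norm_num)]
    norm_num

end Pool.Agent.Results.MP_749e55_an.GammaAboveSqrtTwo
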